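import Pool.Agent.H17.BO.TargetsX
import Pool.Agent.H49.CI.XMT
import Pool.Agent.H33.VGH.DEX

/-!
# Board bo_modules, row XMC: no exceptional conics through general points, dimension count
-/

set_option autoImplicit false

namespace Pool.Agent.H13.BO

open MvPolynomial SC Pool.Agent.H27.LV Pool.Agent.H17.VG Pool.Agent.H17.BO

section
variable {L : Type} [Field L] {n : ℕ}

theorem res2_dir (x b c w : Fin (n + 1) → L) (G : MvPolynomial (Fin (n + 1)) L) :
    res2 x b c (dir w G) = ∑ l, Polynomial.C (w l) * res2 x b c (pderiv l G) := by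
  unfold res2 dir
  rw [map_sum]
  refine Finset.sum_congr rfl fun l _ => ?_
  rw [map_mul, aeval_C]
  rfl

theorem cD_frm' {R : Type} [Field R] [Algebra R L] {d : ℕ} (θ : Derivation R L L)
    (c : Mon (n + 1) d → L) (G : MvPolynomial (Fin (n + 1)) L) (hG : G.IsHomogeneous d)
    (h : ∀ M, θ (c M) = coeff (fs M.1) G) : cD θ (frm c) = G := by
  have h1 : (frm c).IsHomogeneous d := frm_homog c
  have h2 := Pool.Agent.H97.VG.cD_homog θ _ d h1
  rw [← frm_coeff h2, ← frm_coeff hG]
  congr 1
  funext M
  rw [Pool.Agent.H97.VG.cD_coeff, Pool.Agent.H49.CI.coeff_frm, h]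

theorem pD_exc2 {R : Type} [Field R] [Algebra R L] (θ : Derivation R L L) (f α β : L)
    (i j : ℕ) :
    pD θ (Polynomial.C f * (1 + Polynomial.C α * Polynomial.X) ^ i *
        (1 + Polynomial.C β * Polynomial.X) ^ j) =
      Polynomial.C (θ f) * ((1 + Polynomial.C α * Polynomial.X) ^ i *
        (1 + Polynomial.C β * Polynomial.X) ^ j) +
      Polynomial.C (θ α) * (Polynomial.C f * (i : Polynomial L) * Polynomial.X *
        (1 + Polynomial.C α * Polynomial.X) ^ (i - 1) *
        (1 + Polynomial.C β * Polynomial.X) ^ j) +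
      Polynomial.C (θ β) * (Polynomial.C f * (1 + Polynomial.C α * Polynomial.X) ^ i *
        (j : Polynomial L) * Polynomial.X * (1 + Polynomial.C β * Polynomial.X) ^ (j - 1)) := by
  rw [Pool.Agent.H97.VG.pD_mul, Pool.Agent.H49.CI.pD_exc, Pool.Agent.H49.CI.pD_pow,
    Pool.Agent.H97.VG.pD_add, Pool.Agent.H49.CI.pD_one, Pool.Agent.H97.VG.pD_mul,
    Pool.Agent.H97.VG.pD_C, Pool.Agent.H97.VG.pD_X]
  ring

/-- the vectors of the dimension count -/
noncomputable def vC (p : Fin (n + 1)) (x b c : Fin (n + 1) → L)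
    (F : MvPolynomial (Fin (n + 1)) L) (f α β : L) (i j : ℕ) :
    ({l : Fin (n + 1) // l ≠ p} ⊕ (Fin (n + 1) ⊕ Fin 3)) → Polynomial L
  | Sum.inl l => Polynomial.X * res2 x b c (pderiv l.1 F)
  | Sum.inr (Sum.inl l) => Polynomial.X ^ 2 * res2 x b c (pderiv l F)
  | Sum.inr (Sum.inr t) => (![(1 + Polynomial.C α * Polynomial.X) ^ i *
        (1 + Polynomial.C β * Polynomial.X) ^ j,
      Polynomial.C f * (i : Polynomial L) * Polynomial.X *
        (1 + Polynomial.C α * Polynomial.X) ^ (i - 1) *
        (1 + Polynomial.C β * Polynomial.X) ^ j,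
      Polynomial.C f * (1 + Polynomial.C α * Polynomial.X) ^ i *
        (j : Polynomial L) * Polynomial.X * (1 + Polynomial.C β * Polynomial.X) ^ (j - 1)] :
      Fin 3 → Polynomial L) t

theorem dim_bound {ι : Type} [Fintype ι] (v : ι → Polynomial L) (m : ℕ)
    (h : ∀ P : Polynomial L, P.natDegree ≤ m → P ∈ Submodule.span L (Set.range v)) :
    m + 1 ≤ Fintype.card ι := by
  have hfin : Module.Finite L (Submodule.span L (Set.range v)) :=
    Module.Finite.span_of_finite L (Set.finite_range v)
  have h1 : Polynomial.degreeLT L (m + 1) ≤ Submodule.span L (Set.range v) := by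
    intro P hP
    refine h P ?_
    rw [Polynomial.mem_degreeLT] at hP
    by_cases h0 : P = 0
    · rw [h0, Polynomial.natDegree_zero]
      exact Nat.zero_le _
    · have := (Polynomial.natDegree_lt_iff_degree_lt h0).2 hP
      omega
  have h2 := Submodule.finrank_mono h1
  have h3 : Module.finrank L (Polynomial.degreeLT L (m + 1)) = m + 1 := by
    rw [(Polynomial.degreeLTEquiv L (m + 1)).finrank_eq, Module.finrank_fin_fun]
  rw [h3] at h2
  exact h2.trans (finrank_range_le_card v)

end

theorem pf_XMC (hRS2 : T_RS2) (hDR2 : T_DR2) : T_XMC := by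
  intro L _ _ n d hd p q hqp c x b c' α β i j hij hxp hbp hbq hind hlin heq
  set F : MvPolynomial (Fin (n + 1)) L := frm c with hF
  set f : L := eval x F with hf
  have hspan : ∀ P : Polynomial L, P.natDegree ≤ 2 * d →
      P ∈ Submodule.span L (Set.range (vC p x b c' F f α β i j)) := by
    intro P hP
    obtain ⟨G, hG, hGP⟩ := hRS2 L n d x b c' hlin P hP
    obtain ⟨D, hD⟩ := Pool.Agent.H33.VGH.pf_DEX L _ _ hind
      (Sum.elim (fun M : Mon (n + 1) d => coeff (fs M.1) G) (fun _ => 0))
    let θ : Derivation ℚ L L := Pool.Agent.H49.CI.ratD D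
    have hθ : ∀ u, θ u = D u := fun u => rfl
    have hc : ∀ M, θ (c M) = coeff (fs M.1) G := fun M => by
      have := hD (Sum.inl M)
      simpa [hθ] using this
    have hx : ∀ l, θ (x l) = 0 := by
      intro l
      by_cases hl : l = p
      · rw [hl, hxp, Derivation.map_one_eq_zero]
      · have := hD (Sum.inr ⟨l, hl⟩)
        simpa [hθ] using this
    have hb0 : θ (b p) = 0 := by rw [hbp, map_zero]
    have h1 := hDR2 ℚ L n θ x b c' F
    rw [cD_frm' θ c G hG hc, hGP, heq, pD_exc2, res2_dir, res2_dir, res2_dir] at h1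
    have h2 : ∑ l, Polynomial.C (θ (x l)) * res2 x b c' (pderiv l F) = 0 := by
      refine Finset.sum_eq_zero fun l _ => ?_
      rw [hx, Polynomial.C_0, zero_mul]
    rw [h2, add_zero] at h1
    have hm : ∀ s, vC p x b c' F f α β i j s ∈
        Submodule.span L (Set.range (vC p x b c' F f α β i j)) := fun s =>
      Submodule.subset_span (Set.mem_range_self s)
    have h3 : P = θ f • vC p x b c' F f α β i j (Sum.inr (Sum.inr 0)) +
        θ α • vC p x b c' F f α β i j (Sum.inr (Sum.inr 1)) +
        θ β • vC p x b c' F f α β i j (Sum.inr (Sum.inr 2)) -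
        (∑ l, θ (b l) • (Polynomial.X * res2 x b c' (pderiv l F))) -
        ∑ l, θ (c' l) • vC p x b c' F f α β i j (Sum.inr (Sum.inl l)) := by
      have e1 : ∑ l, θ (b l) • (Polynomial.X * res2 x b c' (pderiv l F)) =
          Polynomial.X * ∑ l, Polynomial.C (θ (b l)) * res2 x b c' (pderiv l F) := by
        rw [Finset.mul_sum]
        refine Finset.sum_congr rfl fun l _ => ?_
        rw [Polynomial.smul_eq_C_mul]
        ring
      have e2 : ∑ l, θ (c' l) • vC p x b c' F f α β i j (Sum.inr (Sum.inl l)) =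
          Polynomial.X ^ 2 * ∑ l, Polynomial.C (θ (c' l)) * res2 x b c' (pderiv l F) := by
        rw [Finset.mul_sum]
        refine Finset.sum_congr rfl fun l _ => ?_
        rw [Polynomial.smul_eq_C_mul]
        simp only [vC]
        ring
      rw [e1, e2, Polynomial.smul_eq_C_mul, Polynomial.smul_eq_C_mul, Polynomial.smul_eq_C_mul]
      simp only [vC, Matrix.cons_val_zero, Matrix.cons_val_one, Matrix.cons_val]
      linear_combination -h1
    rw [h3]
    refine Submodule.sub_mem _ (Submodule.sub_mem _ (Submodule.add_mem _ (Submodule.add_mem _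
      (Submodule.smul_mem _ _ (hm _)) (Submodule.smul_mem _ _ (hm _)))
      (Submodule.smul_mem _ _ (hm _))) ?_) ?_
    · refine Submodule.sum_mem _ fun l _ => ?_
      by_cases hl : l = p
      · rw [hl, hb0, zero_smul]
        exact Submodule.zero_mem _
      · exact Submodule.smul_mem _ _ (hm (Sum.inl ⟨l, hl⟩))
    · exact Submodule.sum_mem _ fun l _ => Submodule.smul_mem _ _ (hm _)
  have h := dim_bound _ _ hspan
  rw [Fintype.card_sum, Fintype.card_sum, Fintype.card_fin, Fintype.card_fin] at h
  have h1 : Fintype.card {l : Fin (n + 1) // l ≠ p} = n := by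
    rw [Fintype.card_subtype_compl, Fintype.card_fin, Fintype.card_subtype_eq]
    omega
  omega

end Pool.Agent.H13.BO
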